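import Pool.Agent.Lib.helper24.Funtf

set_option autoImplicit false

namespace Pool.Agent.Results.MP_8b1f5a_an.AllLengths

open Pool.Agent.Lib.helper24.Funtf

/-- Every real or complex normed space of finite dimension `n ≥ 1` has a finite unit norm tight
frame of every length `N ≥ n`. -/
theorem result (𝕜 : Type*) [RCLike 𝕜] (X : Type*) [NormedAddCommGroup X] [NormedSpace 𝕜 X]
    [FiniteDimensional 𝕜 X] (hn : 0 < Module.finrank 𝕜 X) (N : ℕ)
    (hN : Module.finrank 𝕜 X ≤ N) :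
    ∃ (x : Fin N → X) (φ : Fin N → X →L[𝕜] 𝕜),
      (∀ i, ‖x i‖ = 1 ∧ ‖φ i‖ = 1 ∧ φ i (x i) = 1) ∧
      ∃ c : 𝕜, ∀ y : X, ∑ i, φ i y • x i = c • y := by
  obtain ⟨x, φ, h1, h2⟩ := exists_funtf (Module.finBasis 𝕜 X) hn hN
  refine ⟨x, φ, fun i => ?_, (((Module.finrank 𝕜 X : ℝ) / N : ℝ) : 𝕜)⁻¹, fun y => ?_⟩
  · obtain ⟨a1, a2, a3⟩ := h1 i
    have a4 := (φ i).le_opNorm (x i)
    rw [a3, norm_one] at a4
    have a5 := norm_nonneg (x i)
    have a6 := norm_nonneg (φ i)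
    exact ⟨le_antisymm a1 (by nlinarith), le_antisymm a2 (by nlinarith), a3⟩
  · have hc : (((Module.finrank 𝕜 X : ℝ) / N : ℝ) : 𝕜) ≠ 0 := by
      have : (0 : ℝ) < (Module.finrank 𝕜 X : ℝ) / N :=
        div_pos (by exact_mod_cast hn) (by exact_mod_cast hn.trans_le hN)
      exact_mod_cast this.ne'
    have := h2 y
    simp only [mul_smul, ← Finset.smul_sum] at this
    conv_rhs => rw [← this, smul_smul, inv_mul_cancel₀ hc, one_smul]

end Pool.Agent.Results.MP_8b1f5a_an.AllLengths
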